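import Mathlib

/-!
# The propositional ontology `L_1` embeds in the modal logic `S4.2`

We exhibit a modal formula `χ(p,q)` in two variables such that the translation `T_χ` is faithful
for `S4.2`:
`χ(p,q) = p ∧ (q ⊃ □(p ≡ q)) ∧ (¬q ⊃ ◇(p ∧ q))`.
-/

namespace Pool.Agent.Results.MP_c90ce4_lc.EmbedS42

/-- Classical propositional formulas over the variables `0, 1, 2, …`, built with `¬` and `∨`. -/
inductive PForm : Type
  | var : ℕ → PForm
  | neg : PForm → PForm
  | or : PForm → PForm → PForm

/-- Truth value of a propositional formula under a valuation. -/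
def PForm.eval (v : ℕ → Prop) : PForm → Prop
  | .var n => v n
  | .neg α => ¬ α.eval v
  | .or α β => α.eval v ∨ β.eval v

/-- A classical propositional tautology: true under every valuation. -/
def PForm.Taut (α : PForm) : Prop := ∀ v : ℕ → Prop, α.eval v

/-- Formulas of `L_1`: atoms `ε a b` (the name variables are indexed by `ℕ`), closed under `¬`
and `∨`. -/
inductive LForm : Type
  | eps : ℕ → ℕ → LForm
  | neg : LForm → LForm
  | or : LForm → LForm → LForm

/-- Implication, the usual abbreviation. -/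
def LForm.imp (φ ψ : LForm) : LForm := .or (.neg φ) ψ

/-- Conjunction, the usual abbreviation. -/
def LForm.and (φ ψ : LForm) : LForm := .neg (.or (.neg φ) (.neg ψ))

/-- The instance of a propositional formula obtained by substituting `L_1` formulas for its
variables. -/
def PForm.substL (s : ℕ → LForm) : PForm → LForm
  | .var n => s n
  | .neg α => .neg (α.substL s)
  | .or α β => .or (α.substL s) (β.substL s)

/-- Provability in `L_1`: all instances of classical tautologies and of the three schemata,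
closed under modus ponens. -/
inductive L1 : LForm → Prop
  | taut (α : PForm) (s : ℕ → LForm) : α.Taut → L1 (α.substL s)
  | ax1 (a b : ℕ) : L1 ((LForm.eps a b).imp (LForm.eps a a))
  | ax2 (a b c : ℕ) : L1 (((LForm.eps a b).and (LForm.eps b c)).imp (LForm.eps a c))
  | ax3 (a b c : ℕ) : L1 (((LForm.eps a b).and (LForm.eps b c)).imp (LForm.eps b a))
  | mp (φ ψ : LForm) : L1 (φ.imp ψ) → L1 φ → L1 ψ

/-- Modal formulas with propositional variables from `V`, built with `¬`, `∨`, `□`. -/
inductive MForm (V : Type) : Type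
  | var : V → MForm V
  | neg : MForm V → MForm V
  | or : MForm V → MForm V → MForm V
  | box : MForm V → MForm V

/-- Implication. -/
def MForm.imp {V : Type} (φ ψ : MForm V) : MForm V := .or (.neg φ) ψ

/-- Conjunction. -/
def MForm.and {V : Type} (φ ψ : MForm V) : MForm V := .neg (.or (.neg φ) (.neg ψ))

/-- Equivalence. -/
def MForm.iff {V : Type} (φ ψ : MForm V) : MForm V := (φ.imp ψ).and (ψ.imp φ)

/-- Possibility `◇ = ¬□¬`. -/
def MForm.dia {V : Type} (φ : MForm V) : MForm V := .neg (.box (.neg φ))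

/-- Substitution of modal formulas for the variables of a modal formula. -/
def MForm.subst {V W : Type} (s : V → MForm W) : MForm V → MForm W
  | .var n => s n
  | .neg φ => .neg (φ.subst s)
  | .or φ ψ => .or (φ.subst s) (ψ.subst s)
  | .box φ => .box (φ.subst s)

/-- The instance of a propositional formula obtained by substituting modal formulas for its
variables. -/
def PForm.substM (s : ℕ → MForm ℕ) : PForm → MForm ℕ
  | .var n => s n
  | .neg α => .neg (α.substM s)
  | .or α β => .or (α.substM s) (β.substM s)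

/-- A normal modal logic: a set of modal formulas that contains all instances of classical
tautologies and the axiom `□(p ⊃ q) ⊃ (□p ⊃ □q)`, and is closed under modus ponens, necessitation
and uniform substitution. -/
structure IsNormal (Λ : Set (MForm ℕ)) : Prop where
  taut : ∀ (α : PForm) (s : ℕ → MForm ℕ), α.Taut → α.substM s ∈ Λ
  axK : (((MForm.var 0).imp (MForm.var 1)).box.imp
    ((MForm.var 0).box.imp (MForm.var 1).box)) ∈ Λ
  mp : ∀ φ ψ : MForm ℕ, φ.imp ψ ∈ Λ → φ ∈ Λ → ψ ∈ Λ
  nec : ∀ φ : MForm ℕ, φ ∈ Λ → φ.box ∈ Λ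
  subst : ∀ (φ : MForm ℕ) (s : ℕ → MForm ℕ), φ ∈ Λ → φ.subst s ∈ Λ

/-- `S4.2`: the smallest normal modal logic containing `□p ⊃ p`, `□p ⊃ □□p` and
`◇□p ⊃ □◇p`, i.e. the intersection of all normal modal logics containing these formulas. -/
def S42 : Set (MForm ℕ) :=
  {φ | ∀ Λ : Set (MForm ℕ), IsNormal Λ →
    (MForm.var 0).box.imp (MForm.var 0) ∈ Λ →
    (MForm.var 0).box.imp (MForm.var 0).box.box ∈ Λ →
    (MForm.var 0).box.dia.imp (MForm.var 0).dia.box ∈ Λ → φ ∈ Λ}

/-- The translation `T_χ` given by a modal formula `χ` in the two variables `0` (for `p`) and `1`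
(for `q`) and an assignment `a ↦ p_a` of propositional variables to name variables:
`T_χ(ε a b) = χ(p_a, p_b)`, and `T_χ` commutes with `¬` and `∨`. -/
def T (χ : MForm (Fin 2)) (p : ℕ → ℕ) : LForm → MForm ℕ
  | .eps a b => χ.subst ![MForm.var (p a), MForm.var (p b)]
  | .neg φ => .neg (T χ p φ)
  | .or φ ψ => .or (T χ p φ) (T χ p ψ)

/-! ### The formula `χ` -/

/-- `χ(A,B) = A ∧ (B ⊃ □(A ≡ B)) ∧ (¬B ⊃ ◇(A ∧ B))`. -/
def chi {V : Type} (A B : MForm V) : MForm V :=
  A.and ((B.imp (A.iff B).box).and ((MForm.neg B).imp (A.and B).dia))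

/-! ### Propositional reasoning in a normal logic -/

section PropReasoning
variable {Λ : Set (MForm ℕ)}

/-- substitution list helper -/
def ls (l : List (MForm ℕ)) : ℕ → MForm ℕ := fun n => l.getD n (MForm.var 0)

/-- abbreviations on propositional formulas -/
def PForm.imp (φ ψ : PForm) : PForm := .or (.neg φ) ψ
def PForm.and (φ ψ : PForm) : PForm := .neg (.or (.neg φ) (.neg ψ))
def PForm.iff (φ ψ : PForm) : PForm := (φ.imp ψ).and (ψ.imp φ)

theorem kInst (h : IsNormal Λ) (A B : MForm ℕ) :
    ((A.imp B).box.imp (A.box.imp B.box)) ∈ Λ := by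
  have := h.subst _ (ls [A, B]) h.axK
  simpa [MForm.subst, MForm.imp, ls] using this

theorem boxImp (h : IsNormal Λ) {A B : MForm ℕ} (hAB : A.imp B ∈ Λ) :
    A.box.imp B.box ∈ Λ :=
  h.mp _ _ (kInst h A B) (h.nec _ hAB)

theorem t_trans (h : IsNormal Λ) {A B C : MForm ℕ} (h1 : A.imp B ∈ Λ) (h2 : B.imp C ∈ Λ) :
    A.imp C ∈ Λ := by
  have ht : ((PForm.var 0).imp (.var 1)).imp
      (((PForm.var 1).imp (.var 2)).imp ((PForm.var 0).imp (.var 2))) |>.Taut := by
    intro v; simp only [PForm.eval, PForm.imp]; tauto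
  have := h.taut _ (ls [A, B, C]) ht
  have e : (((PForm.var 0).imp (.var 1)).imp
      (((PForm.var 1).imp (.var 2)).imp ((PForm.var 0).imp (.var 2)))).substM (ls [A, B, C]) =
      (A.imp B).imp ((B.imp C).imp (A.imp C)) := rfl
  rw [e] at this
  exact h.mp _ _ (h.mp _ _ this h1) h2

/-- `□(A ≡ A)` -/
theorem m1 (h : IsNormal Λ) (A : MForm ℕ) : (A.iff A).box ∈ Λ := by
  refine h.nec _ ?_
  have ht : ((PForm.var 0).iff (.var 0)) |>.Taut := by
    intro v; simp only [PForm.eval, PForm.imp, PForm.iff, PForm.and]; tauto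
  exact h.taut _ (ls [A]) ht

/-- `□(A ≡ B) ⊃ (□(B ≡ C) ⊃ □(A ≡ C))` -/
theorem m2 (h : IsNormal Λ) (A B C : MForm ℕ) :
    (A.iff B).box.imp ((B.iff C).box.imp (A.iff C).box) ∈ Λ := by
  have ht : ((PForm.var 0).iff (.var 1)).imp
      (((PForm.var 1).iff (.var 2)).imp ((PForm.var 0).iff (.var 2))) |>.Taut := by
    intro v; simp only [PForm.eval, PForm.imp, PForm.iff, PForm.and]; tauto
  have h1 : (A.iff B).imp ((B.iff C).imp (A.iff C)) ∈ Λ := h.taut _ (ls [A, B, C]) ht
  exact t_trans h (boxImp h h1) (kInst h _ _)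

/-- `□(A ≡ B) ⊃ □(B ≡ A)` -/
theorem m3 (h : IsNormal Λ) (A B : MForm ℕ) :
    (A.iff B).box.imp (B.iff A).box ∈ Λ := by
  have ht : ((PForm.var 0).iff (.var 1)).imp ((PForm.var 1).iff (.var 0)) |>.Taut := by
    intro v; simp only [PForm.eval, PForm.imp, PForm.iff, PForm.and]; tauto
  have h1 : (A.iff B).imp (B.iff A) ∈ Λ := h.taut _ (ls [A, B]) ht
  exact boxImp h h1

/-- `□(A ≡ B) ⊃ (□¬(A ∧ C) ⊃ □¬(B ∧ C))` -/
theorem m4 (h : IsNormal Λ) (A B C : MForm ℕ) :
    (A.iff B).box.imp ((MForm.neg (A.and C)).box.imp (MForm.neg (B.and C)).box) ∈ Λ := by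
  have ht : ((PForm.var 0).iff (.var 1)).imp
      ((PForm.neg ((PForm.var 0).and (.var 2))).imp
        (PForm.neg ((PForm.var 1).and (.var 2)))) |>.Taut := by
    intro v; simp only [PForm.eval, PForm.imp, PForm.iff, PForm.and]; tauto
  have h1 : (A.iff B).imp ((MForm.neg (A.and C)).imp (MForm.neg (B.and C))) ∈ Λ :=
    h.taut _ (ls [A, B, C]) ht
  exact t_trans h (boxImp h h1) (kInst h _ _)

theorem chi1 (h : IsNormal Λ) (A B : MForm ℕ) : (chi A B).imp (chi A A) ∈ Λ := by
  -- variables: 0 = A, 1 = B, 2 = □(A≡B), 3 = □¬(A∧B), 4 = □(A≡A), 5 = □¬(A∧A)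
  have ht : (PForm.var 4).imp
      (((PForm.var 0).and (((PForm.var 1).imp (.var 2)).and
          ((PForm.neg (.var 1)).imp (.neg (.var 3))))).imp
        ((PForm.var 0).and (((PForm.var 0).imp (.var 4)).and
          ((PForm.neg (.var 0)).imp (.neg (.var 5)))))) |>.Taut := by
    intro v; simp only [PForm.eval, PForm.imp, PForm.and]; tauto
  have h1 : (A.iff A).box.imp ((chi A B).imp (chi A A)) ∈ Λ :=
    h.taut _ (ls [A, B, (A.iff B).box, (MForm.neg (A.and B)).box, (A.iff A).box,
      (MForm.neg (A.and A)).box]) ht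
  exact h.mp _ _ h1 (m1 h A)

theorem chi2 (h : IsNormal Λ) (A B C : MForm ℕ) :
    ((chi A B).and (chi B C)).imp (chi A C) ∈ Λ := by
  -- variables: 0 = A, 1 = B, 2 = C, 3 = □(A≡B), 4 = □¬(A∧B), 5 = □(B≡C), 6 = □¬(B∧C),
  -- 7 = □(A≡C), 8 = □¬(A∧C)
  have ht : ((PForm.var 3).imp ((PForm.var 5).imp (.var 7))).imp
      (((PForm.var 3).imp ((PForm.var 8).imp (.var 6))).imp
      (((((PForm.var 0).and (((PForm.var 1).imp (.var 3)).and
          ((PForm.neg (.var 1)).imp (.neg (.var 4)))))).and
        (((PForm.var 1).and (((PForm.var 2).imp (.var 5)).and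
          ((PForm.neg (.var 2)).imp (.neg (.var 6))))))).imp
        ((PForm.var 0).and (((PForm.var 2).imp (.var 7)).and
          ((PForm.neg (.var 2)).imp (.neg (.var 8))))))) |>.Taut := by
    intro v; simp only [PForm.eval, PForm.imp, PForm.and]; tauto
  have h1 : ((A.iff B).box.imp ((B.iff C).box.imp (A.iff C).box)).imp
      (((A.iff B).box.imp ((MForm.neg (A.and C)).box.imp (MForm.neg (B.and C)).box)).imp
      (((chi A B).and (chi B C)).imp (chi A C))) ∈ Λ :=
    h.taut _ (ls [A, B, C, (A.iff B).box, (MForm.neg (A.and B)).box, (B.iff C).box,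
      (MForm.neg (B.and C)).box, (A.iff C).box, (MForm.neg (A.and C)).box]) ht
  exact h.mp _ _ (h.mp _ _ h1 (m2 h A B C)) (m4 h A B C)

theorem chi3 (h : IsNormal Λ) (A B C : MForm ℕ) :
    ((chi A B).and (chi B C)).imp (chi B A) ∈ Λ := by
  -- variables: 0 = A, 1 = B, 2 = C, 3 = □(A≡B), 4 = □¬(A∧B), 5 = □(B≡C), 6 = □¬(B∧C),
  -- 7 = □(B≡A), 8 = □¬(B∧A)
  have ht : ((PForm.var 3).imp (.var 7)).imp
      (((((PForm.var 0).and (((PForm.var 1).imp (.var 3)).and
          ((PForm.neg (.var 1)).imp (.neg (.var 4)))))).and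
        (((PForm.var 1).and (((PForm.var 2).imp (.var 5)).and
          ((PForm.neg (.var 2)).imp (.neg (.var 6))))))).imp
        ((PForm.var 1).and (((PForm.var 0).imp (.var 7)).and
          ((PForm.neg (.var 0)).imp (.neg (.var 8)))))) |>.Taut := by
    intro v; simp only [PForm.eval, PForm.imp, PForm.and]; tauto
  have h1 : ((A.iff B).box.imp (B.iff A).box).imp
      (((chi A B).and (chi B C)).imp (chi B A)) ∈ Λ :=
    h.taut _ (ls [A, B, C, (A.iff B).box, (MForm.neg (A.and B)).box, (B.iff C).box,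
      (MForm.neg (B.and C)).box, (B.iff A).box, (MForm.neg (B.and A)).box]) ht
  exact h.mp _ _ h1 (m3 h A B)

end PropReasoning

/-- The formula `χ` in the variables `0, 1`. -/
def chi0 : MForm (Fin 2) := chi (MForm.var 0) (MForm.var 1)

theorem T_eps (p : ℕ → ℕ) (a b : ℕ) :
    T chi0 p (.eps a b) = chi (MForm.var (p a)) (MForm.var (p b)) := rfl

theorem T_substL (χ : MForm (Fin 2)) (p : ℕ → ℕ) (α : PForm) (s : ℕ → LForm) :
    T χ p (α.substL s) = α.substM (fun n => T χ p (s n)) := by
  induction α with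
  | var n => rfl
  | neg α ih => simp only [PForm.substL, PForm.substM, T, ih]
  | or α β iha ihb => simp only [PForm.substL, PForm.substM, T, iha, ihb]

/-- Soundness of the translation for every normal modal logic. -/
theorem sound {Λ : Set (MForm ℕ)} (h : IsNormal Λ) (p : ℕ → ℕ) {φ : LForm} (hφ : L1 φ) :
    T chi0 p φ ∈ Λ := by
  induction hφ with
  | taut α s hα =>
    rw [T_substL]
    exact h.taut _ _ hα
  | ax1 a b => exact chi1 h _ _
  | ax2 a b c => exact chi2 h _ _ _
  | ax3 a b c => exact chi3 h _ _ _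
  | mp φ ψ _ _ ih1 ih2 => exact h.mp _ _ ih1 ih2

/-! ### Semantics: the universal frame on a type `W` -/

/-- Truth in the universal frame on `W`. -/
def sat {W V : Type} (v : V → W → Prop) : W → MForm V → Prop
  | w, .var n => v n w
  | w, .neg φ => ¬ sat v w φ
  | w, .or φ ψ => sat v w φ ∨ sat v w ψ
  | _, .box φ => ∀ u, sat v u φ

theorem sat_subst {W V U : Type} (v : U → W → Prop) (s : V → MForm U) (φ : MForm V) :
    ∀ w, sat v w (φ.subst s) ↔ sat (fun n w => sat v w (s n)) w φ := by
  induction φ with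
  | var n => intro w; rfl
  | neg φ ih => intro w; simp only [MForm.subst, sat, ih]
  | or φ ψ ih1 ih2 => intro w; simp only [MForm.subst, sat, ih1, ih2]
  | box φ ih => intro w; simp only [MForm.subst, sat, ih]

theorem sat_substM {W : Type} (v : ℕ → W → Prop) (s : ℕ → MForm ℕ) (α : PForm) (w : W) :
    sat v w (α.substM s) ↔ α.eval (fun n => sat v w (s n)) := by
  induction α with
  | var n => rfl
  | neg α ih => simp only [PForm.substM, sat, PForm.eval, ih]
  | or α β iha ihb => simp only [PForm.substM, sat, PForm.eval, iha, ihb]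

/-- The formulas valid in the universal frame on `W` form a normal logic. -/
theorem normal_valid (W : Type) :
    IsNormal {φ | ∀ (v : ℕ → W → Prop) (w : W), sat v w φ} where
  taut α s h := by
    intro v w
    rw [sat_substM]
    exact h _
  axK := by
    intro v w
    simp only [MForm.imp, sat]
    by_cases h1 : ∀ u, ¬ v 0 u ∨ v 1 u
    · by_cases h2 : ∀ u, v 0 u
      · right; right; intro u
        rcases h1 u with h | h
        · exact absurd (h2 u) h
        · exact h
      · right; left; exact h2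
    · left; exact h1
  mp φ ψ h1 h2 := by
    intro v w
    rcases h1 v w with h | h
    · exact absurd (h2 v w) h
    · exact h
  nec φ h := by
    intro v w u
    exact h v u
  subst φ s h := by
    intro v w
    rw [sat_subst]
    exact h _ _

theorem S42_valid (W : Type) {φ : MForm ℕ} (h : φ ∈ S42) (v : ℕ → W → Prop) (w : W) :
    sat v w φ := by
  refine h {φ | ∀ (v : ℕ → W → Prop) (w : W), sat v w φ} (normal_valid W) ?_ ?_ ?_ v w
  · intro v w
    simp only [MForm.imp, sat]
    by_cases h1 : ∀ u, v 0 u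
    · right; exact h1 w
    · left; exact h1
  · intro v w
    simp only [MForm.imp, sat]
    by_cases h1 : ∀ u, v 0 u
    · right; intro _ u; exact h1 u
    · left; exact h1
  · intro v w
    simp only [MForm.imp, MForm.dia, sat]
    by_cases h1 : ∀ u, v 0 u
    · right; intro _ h2; exact h2 w (h1 w)
    · left; intro h2; exact h2 (fun _ => h1)

/-! ### Completeness of `L_1` for valuations -/

/-- Truth of an `L_1` formula under an interpretation of the atoms. -/
def evalL (E : ℕ → ℕ → Prop) : LForm → Prop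
  | .eps a b => E a b
  | .neg φ => ¬ evalL E φ
  | .or φ ψ => evalL E φ ∨ evalL E ψ

/-- The propositional skeleton of an `L_1` formula. -/
def sk : LForm → PForm
  | .eps a b => .var (Nat.pair a b)
  | .neg φ => .neg (sk φ)
  | .or φ ψ => .or (sk φ) (sk ψ)

theorem sk_substL (φ : LForm) :
    (sk φ).substL (fun n => .eps (Nat.unpair n).1 (Nat.unpair n).2) = φ := by
  induction φ with
  | eps a b => simp [sk, PForm.substL]
  | neg φ ih => simp only [sk, PForm.substL, ih]
  | or φ ψ ih1 ih2 => simp only [sk, PForm.substL, ih1, ih2]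

theorem sk_eval (v : ℕ → Prop) (φ : LForm) :
    (sk φ).eval v ↔ evalL (fun a b => v (Nat.pair a b)) φ := by
  induction φ with
  | eps a b => rfl
  | neg φ ih => simp only [sk, PForm.eval, evalL, ih]
  | or φ ψ ih1 ih2 => simp only [sk, PForm.eval, evalL, ih1, ih2]

/-- A formula true under all interpretations is provable. -/
theorem L1_of_valid {φ : LForm} (h : ∀ E, evalL E φ) : L1 φ := by
  have := L1.taut (sk φ) (fun n => .eps (Nat.unpair n).1 (Nat.unpair n).2)
    (fun v => (sk_eval v φ).2 (h _))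
  rwa [sk_substL] at this

/-- A formula that follows propositionally from finitely many provable ones is provable. -/
theorem L1_of_conseq (l : List LForm) :
    ∀ φ : LForm, (∀ ψ ∈ l, L1 ψ) → (∀ E, (∀ ψ ∈ l, evalL E ψ) → evalL E φ) → L1 φ := by
  induction l with
  | nil =>
    intro φ _ h
    exact L1_of_valid (fun E => h E (by simp))
  | cons χ l ih =>
    intro φ hl h
    have h1 : L1 (χ.imp φ) := by
      refine ih _ (fun ψ hψ => hl ψ (List.mem_cons_of_mem _ hψ)) ?_
      intro E hE
      simp only [LForm.imp, evalL]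
      by_cases hx : evalL E χ
      · right
        refine h E ?_
        intro ψ hψ
        rcases List.mem_cons.1 hψ with rfl | hψ
        · exact hx
        · exact hE ψ hψ
      · left; exact hx
    exact L1.mp _ _ h1 (hl χ (List.mem_cons_self))

/-- All names occurring in a formula are `< n`. -/
def bdd (n : ℕ) : LForm → Prop
  | .eps a b => a < n ∧ b < n
  | .neg φ => bdd n φ
  | .or φ ψ => bdd n φ ∧ bdd n ψ

theorem bdd_mono {m n : ℕ} (hmn : m ≤ n) : ∀ {φ : LForm}, bdd m φ → bdd n φ
  | .eps _ _, h => ⟨lt_of_lt_of_le h.1 hmn, lt_of_lt_of_le h.2 hmn⟩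
  | .neg φ, h => bdd_mono (φ := φ) hmn h
  | .or φ ψ, h => ⟨bdd_mono (φ := φ) hmn h.1, bdd_mono (φ := ψ) hmn h.2⟩

theorem exists_bdd : ∀ φ : LForm, ∃ n, bdd n φ
  | .eps a b => ⟨max a b + 1, by simp only [bdd]; omega⟩
  | .neg φ => exists_bdd φ
  | .or φ ψ => by
    obtain ⟨m, hm⟩ := exists_bdd φ
    obtain ⟨n, hn⟩ := exists_bdd ψ
    exact ⟨max m n, bdd_mono (le_max_left _ _) hm, bdd_mono (le_max_right _ _) hn⟩

theorem evalL_congr {n : ℕ} {E E' : ℕ → ℕ → Prop} (h : ∀ a < n, ∀ b < n, (E a b ↔ E' a b)) :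
    ∀ {φ : LForm}, bdd n φ → (evalL E φ ↔ evalL E' φ)
  | .eps a b, hb => h a hb.1 b hb.2
  | .neg φ, hb => not_congr (evalL_congr h (φ := φ) hb)
  | .or φ ψ, hb => or_congr (evalL_congr h (φ := φ) hb.1) (evalL_congr h (φ := ψ) hb.2)

/-! ### The model -/

/-- The `S5` model attached to an interpretation `E` of the atoms: at the distinguished world
`none` the variable `p_b` holds iff `E b b`; at the world `some a` it holds iff `E a b`. -/
def val (p : ℕ → ℕ) (E : ℕ → ℕ → Prop) (n : ℕ) : Option ℕ → Prop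
  | none => ∃ b, p b = n ∧ E b b
  | some a => ∃ b, p b = n ∧ E a b

theorem val_none {p : ℕ → ℕ} (hp : Function.Injective p) (E : ℕ → ℕ → Prop) (b : ℕ) :
    val p E (p b) none ↔ E b b := by
  constructor
  · rintro ⟨c, hc, h⟩
    rwa [hp hc] at h
  · intro h; exact ⟨b, rfl, h⟩

theorem val_some {p : ℕ → ℕ} (hp : Function.Injective p) (E : ℕ → ℕ → Prop) (a b : ℕ) :
    val p E (p b) (some a) ↔ E a b := by
  constructor
  · rintro ⟨c, hc, h⟩
    rwa [hp hc] at h
  · intro h; exact ⟨b, rfl, h⟩

theorem sat_chi {W V : Type} (v : V → W → Prop) (w : W) (A B : MForm V) :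
    sat v w (chi A B) ↔
      sat v w A ∧ (sat v w B → ∀ u, (sat v u A ↔ sat v u B)) ∧
        (¬ sat v w B → ∃ u, sat v u A ∧ sat v u B) := by
  simp only [chi, MForm.and, MForm.imp, MForm.iff, MForm.dia, sat]
  constructor
  · intro h
    by_cases hA : sat v w A
    · refine ⟨hA, ?_, ?_⟩
      · intro hB u
        by_contra hne
        apply h
        right
        intro h2
        apply h2
        left
        intro h3
        rcases h3 with h3 | h3
        · exact h3 hB
        · have := h3 u
          tauto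
      · intro hB
        by_contra hne
        push Not at hne
        apply h
        right
        intro h2
        apply h2
        right
        intro h3
        rcases h3 with h3 | h3
        · exact h3 hB
        · apply h3
          intro u
          have := hne u
          tauto
    · exfalso
      apply h
      left
      exact hA
  · rintro ⟨hA, h1, h2⟩ h
    rcases h with h | h
    · exact h hA
    · apply h
      intro h'
      rcases h' with h' | h'
      · apply h'
        by_cases hB : sat v w B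
        · right
          intro u
          have := h1 hB u
          tauto
        · left; exact hB
      · apply h'
        by_cases hB : sat v w B
        · left; intro h3; exact h3 hB
        · right
          intro h3
          obtain ⟨u, hu1, hu2⟩ := h2 hB
          have := h3 u
          tauto

theorem sat_T {p : ℕ → ℕ} (hp : Function.Injective p) {E : ℕ → ℕ → Prop}
    (h1 : ∀ a b, E a b → E a a) (h2 : ∀ a b c, E a b → E b c → E a c)
    (h3 : ∀ a b c, E a b → E b c → E b a) :
    ∀ φ : LForm, sat (val p E) none (T chi0 p φ) ↔ evalL E φ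
  | .eps a b => by
    rw [T_eps, sat_chi]
    simp only [sat, evalL]
    rw [val_none hp, val_none hp]
    constructor
    · rintro ⟨ha, hb1, hb2⟩
      by_cases hb : E b b
      · have := hb1 hb (some a)
        rw [val_some hp, val_some hp] at this
        exact this.1 ha
      · obtain ⟨u, hu1, hu2⟩ := hb2 hb
        cases u with
        | none => exact absurd ((val_none hp E b).1 hu2) hb
        | some c =>
          rw [val_some hp] at hu1 hu2
          exact h2 _ _ _ (h3 _ _ _ hu1 ha) hu2
    · intro hab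
      refine ⟨h1 _ _ hab, ?_, ?_⟩
      · intro hbb u
        have hba : E b a := h3 _ _ _ hab hbb
        cases u with
        | none =>
          rw [val_none hp, val_none hp]
          exact ⟨fun _ => hbb, fun _ => h1 _ _ hab⟩
        | some c =>
          rw [val_some hp, val_some hp]
          exact ⟨fun h => h2 _ _ _ h hab, fun h => h2 _ _ _ h hba⟩
      · intro _
        exact ⟨some a, (val_some hp _ _ _).2 (h1 _ _ hab), (val_some hp _ _ _).2 hab⟩
  | .neg φ => not_congr (sat_T hp h1 h2 h3 φ)
  | .or φ ψ => or_congr (sat_T hp h1 h2 h3 φ) (sat_T hp h1 h2 h3 ψ)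

/-- The list of all instances of the three schemata with names `< n`. -/
def axList (n : ℕ) : List LForm :=
  (List.range n).flatMap fun a => (List.range n).flatMap fun b => (List.range n).flatMap fun c =>
    [(LForm.eps a b).imp (LForm.eps a a),
     ((LForm.eps a b).and (LForm.eps b c)).imp (LForm.eps a c),
     ((LForm.eps a b).and (LForm.eps b c)).imp (LForm.eps b a)]

theorem mem_axList {n : ℕ} {ψ : LForm} : ψ ∈ axList n ↔ ∃ a < n, ∃ b < n, ∃ c < n,
    (ψ = (LForm.eps a b).imp (LForm.eps a a) ∨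
     ψ = ((LForm.eps a b).and (LForm.eps b c)).imp (LForm.eps a c) ∨
     ψ = ((LForm.eps a b).and (LForm.eps b c)).imp (LForm.eps b a)) := by
  simp [axList]

theorem axList_prov {n : ℕ} : ∀ ψ ∈ axList n, L1 ψ := by
  intro ψ h
  obtain ⟨a, _, b, _, c, _, h | h | h⟩ := mem_axList.1 h
  · rw [h]; exact L1.ax1 _ _
  · rw [h]; exact L1.ax2 _ _ _
  · rw [h]; exact L1.ax3 _ _ _

/-- Faithfulness. -/
theorem faithful {p : ℕ → ℕ} (hp : Function.Injective p) {φ : LForm}
    (h : T chi0 p φ ∈ S42) : L1 φ := by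
  obtain ⟨n, hn⟩ := exists_bdd φ
  refine L1_of_conseq (axList n) φ axList_prov ?_
  intro E hE
  -- restrict `E` to the names below `n`
  set E' : ℕ → ℕ → Prop := fun a b => a < n ∧ b < n ∧ E a b with hE'
  have hc : ∀ a < n, ∀ b < n, (E a b ↔ E' a b) := by
    intro a ha b hb
    simp only [hE']
    tauto
  rw [evalL_congr hc hn]
  have k1 : ∀ a b, E' a b → E' a a := by
    rintro a b ⟨ha, hb, hab⟩
    refine ⟨ha, ha, ?_⟩
    have := hE _ (mem_axList.2 ⟨a, ha, b, hb, a, ha, Or.inl rfl⟩)
    simp only [LForm.imp, evalL] at this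
    tauto
  have k2 : ∀ a b c, E' a b → E' b c → E' a c := by
    rintro a b c ⟨ha, hb, hab⟩ ⟨_, hc, hbc⟩
    refine ⟨ha, hc, ?_⟩
    have := hE _ (mem_axList.2 ⟨a, ha, b, hb, c, hc, Or.inr (Or.inl rfl)⟩)
    simp only [LForm.imp, LForm.and, evalL] at this
    tauto
  have k3 : ∀ a b c, E' a b → E' b c → E' b a := by
    rintro a b c ⟨ha, hb, hab⟩ ⟨_, hc, hbc⟩
    refine ⟨hb, ha, ?_⟩
    have := hE _ (mem_axList.2 ⟨a, ha, b, hb, c, hc, Or.inr (Or.inr rfl)⟩)
    simp only [LForm.imp, LForm.and, evalL] at this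
    tauto
  exact (sat_T hp k1 k2 k3 φ).1 (S42_valid (Option ℕ) h (val p E') none)

/-- **`L_1` embeds in `S4.2`.** There is a modal formula `χ(p,q)` in two variables such that, for
every injective assignment `a ↦ p_a` of propositional variables to name variables, the
translation `T_χ` is faithful for `S4.2`: for every formula `φ` of `L_1`, `φ` is a theorem of
`L_1` if and only if `T_χ(φ)` is a theorem of `S4.2`. -/
theorem result : ∃ χ : MForm (Fin 2), ∀ p : ℕ → ℕ, Function.Injective p →
    ∀ φ : LForm, L1 φ ↔ T χ p φ ∈ S42 :=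
  ⟨chi0, fun p hp _ => ⟨fun h _ hΛ _ _ _ => sound hΛ p h, fun h => faithful hp h⟩⟩

end Pool.Agent.Results.MP_c90ce4_lc.EmbedS42
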